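import Pool.Agent.L0h45.LR.Stm
import Pool.Agent.N50.PQ.Box

/-!
# LR, module BX0
-/

set_option autoImplicit false
set_option linter.all false

open Finset
open scoped Classical

namespace Pool.Agent.L0h45.LR

open Pool.Agent.N874.PP (Tup chA chB gq tau Two)
open Pool.Agent.N922.PQ
open Pool.Agent.L0h45.AR (Q4 Box)

/-- the binary quartic form of a tuple -/
def qf (B : Tup ℤ) : Q4 ℤ := ⟨4 * B.x, -8 * B.y, -12 * B.c, 4 * B.z, B.w⟩

theorem qf_I (B : Tup ℤ) : (qf B).I = -48 * chA B := by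
  unfold Q4.I qf chA
  ring

theorem qf_inj {B B' : Tup ℤ} (h : qf B = qf B') : B = B' := by
  have h1 := congrArg Q4.a h
  have h2 := congrArg Q4.b h
  have h3 := congrArg Q4.c h
  have h4 := congrArg Q4.d h
  have h5 := congrArg Q4.e h
  simp only [qf] at h1 h2 h3 h4 h5
  exact Tup.ext (by omega) (by omega) (by omega) (by omega) h5

/-- **BX0** -/
theorem t_BX0 (h : Pool.Agent.L0h45.VL.S_V6) : S_BX0 := by
  obtain ⟨C, hC, H⟩ := h
  intro κ
  obtain ⟨K', hK'⟩ := Pool.Agent.N50.PQ.box0 κ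
  refine ⟨⌈C * (16 * (κ : ℝ)) ^ 3⌉₊, fun a S s X T hT hX => ?_⟩
  have hfin : {B : Tup ℤ | Xset κ X T S s B ∧ chA B = a}.Finite :=
    (hK' S s X T hT hX).1.subset fun B hB => hB.1
  refine ⟨hfin, ?_⟩
  rw [Set.ncard_eq_toFinset_card _ hfin]
  obtain ⟨U, hU⟩ : ∃ U, U = hfin.toFinset := ⟨_, rfl⟩
  have hmem : ∀ B ∈ U, Xset κ X T S s B ∧ chA B = a := by
    intro B hB
    rw [hU, Set.Finite.mem_toFinset] at hB
    exact hB
  rw [← hU]
  rcases U.eq_empty_or_nonempty with he | ⟨B₀, hB₀⟩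
  · rw [he, card_empty]
    exact Nat.zero_le _
  have hT2 : (T : ℤ) ^ 2 ≤ κ * X := by
    have h1 := (hmem B₀ hB₀).1.box.1
    have h2 : (1 : ℤ) ≤ |B₀.x| := Int.one_le_abs (hmem B₀ hB₀).1.nz
    have h3 : (0 : ℤ) ≤ (T : ℤ) ^ 2 := by positivity
    nlinarith
  obtain ⟨j, hj⟩ : ∃ j, j = Nat.log 4 T := ⟨_, rfl⟩
  have hj1 : 4 ^ j ≤ T := by
    rw [hj]
    exact Nat.pow_log_le_self 4 (by omega)
  have hj2 : T < 4 ^ (j + 1) := by
    rw [hj]
    exact Nat.lt_pow_succ_log_self (by norm_num) T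
  obtain ⟨w, hw⟩ : ∃ w : ℝ, w = 4 ^ j := ⟨_, rfl⟩
  have h16 : (16 : ℝ) ^ j = w * w := by
    rw [hw, ← mul_pow]
    norm_num
  have hw0 : 0 < w := by rw [hw]; positivity
  obtain ⟨t, ht⟩ : ∃ t : ℝ, t = T := ⟨_, rfl⟩
  have hwt : w ≤ t := by
    rw [hw, ht]
    exact_mod_cast hj1
  have htw : t ≤ 4 * w := by
    rw [hw, ht]
    have : ((T : ℝ)) ≤ ((4 ^ (j + 1) : ℕ) : ℝ) := by exact_mod_cast hj2.le
    rw [pow_succ] at this
    push_cast at this
    linarith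
  obtain ⟨k, hk⟩ : ∃ k : ℝ, k = (κ : ℝ) * X := ⟨_, rfl⟩
  have hk0 : 0 ≤ k := by rw [hk]; positivity
  have htk : t ^ 2 ≤ k := by
    rw [ht, hk]
    exact_mod_cast hT2
  have hL : (16 : ℝ) ^ j ≤ 16 * k := by
    rw [h16]
    nlinarith
  have himg : ((U.image qf).card : ℝ) ≤ C * (16 * k) ^ 3 := by
    apply H j (16 * k) hL (-48 * a)
    intro F hF
    rw [mem_image] at hF
    obtain ⟨B, hB, rfl⟩ := hF
    obtain ⟨⟨⟨b1, b2, b3, b4, b5⟩, hnz, -, -, -⟩, hA⟩ := hmem B hB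
    have c1 : |(B.x : ℝ)| * t ^ 2 ≤ k := by rw [ht, hk]; exact_mod_cast b1
    have c2 : |(B.y : ℝ)| * t ≤ k := by rw [ht, hk]; exact_mod_cast b2
    have c3 : |(B.c : ℝ)| ≤ k := by rw [hk]; exact_mod_cast b3
    have c4 : |(B.z : ℝ)| ≤ k * t := by rw [ht, hk]; exact_mod_cast b4
    have c5 : |(B.w : ℝ)| ≤ k * t ^ 2 := by rw [ht, hk]; exact_mod_cast b5
    have x0 := abs_nonneg (B.x : ℝ)
    have y0 := abs_nonneg (B.y : ℝ)
    refine ⟨?_, ?_, ?_, ?_, ?_, ?_, ?_⟩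
    · simp only [qf]
      exact mul_ne_zero (by norm_num) hnz
    · rw [qf_I, hA]
    · simp only [qf]
      push_cast
      rw [h16, abs_mul, show |(4 : ℝ)| = 4 from abs_of_pos (by norm_num)]
      nlinarith [mul_le_mul hwt hwt hw0.le (by linarith : (0 : ℝ) ≤ t)]
    · simp only [qf]
      push_cast
      rw [← hw, abs_mul, show |(-8 : ℝ)| = 8 by norm_num]
      nlinarith
    · simp only [qf]
      push_cast
      rw [abs_mul, show |(-12 : ℝ)| = 12 by norm_num]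
      linarith
    · simp only [qf]
      push_cast
      rw [← hw, abs_mul, show |(4 : ℝ)| = 4 from abs_of_pos (by norm_num)]
      nlinarith
    · simp only [qf]
      rw [h16]
      have : t ^ 2 ≤ 16 * (w * w) := by nlinarith
      nlinarith
  rw [card_image_of_injOn (fun B _ B' _ h => qf_inj h)] at himg
  have h7 : (U.card : ℝ) ≤ (⌈C * (16 * (κ : ℝ)) ^ 3⌉₊ * X ^ 3 : ℕ) := by
    push_cast
    calc (U.card : ℝ) ≤ C * (16 * k) ^ 3 := himg
      _ = (C * (16 * (κ : ℝ)) ^ 3) * (X : ℝ) ^ 3 := by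
          rw [hk]
          ring
      _ ≤ _ := by
          gcongr
          exact Nat.le_ceil _
  exact_mod_cast h7

end Pool.Agent.L0h45.LR
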