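import Pool.Agent.N922.PQ.Def
import Pool.Agent.L0h45.VL.Stm

/-!
# Project LR (helper45): rank zero on vertical lines `y² = x³ + a x + b`, `a` fixed

Statements of the modules. `Tup`, `chA`, `chB`, `gq`, `tau` are in `N874/PP/Def.lean`; `TT`, `InBox`, `GoodS`, `GoodT`, `Fam`,
`Xset`, `LBad` (namespace `N922.PQ`) in `N922/PQ/Def.lean`; `S_V2`, `S_V3`, `S_V4`, `S_V6` (proved: `L0h45/VL/Main.lean`) in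
`L0h45/VL/Stm.lean`. `τ(n)` is `n.divisors.card`.
-/

set_option autoImplicit false
set_option linter.all false

open Finset
open scoped Classical

namespace Pool.Agent.L0h45.LR

open Pool.Agent.N874.PP (Tup chA chB gq tau Two)
open Pool.Agent.N922.PQ

/-! ### Exponential sums -/

/-- `exp (2 π i t)` -/
noncomputable def ex (t : ℝ) : ℂ := Complex.exp (2 * Real.pi * t * Complex.I)

/-- the distance to the nearest integer -/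
noncomputable def dn (t : ℝ) : ℝ := |t - round t|

/-- the number of divisors -/
def tn (n : ℕ) : ℕ := n.divisors.card

/-- GEO: geometric sums -/
def S_GEO : Prop := ∀ (t : ℝ) (u : ℤ) (n : ℕ), 0 < dn t →
  ‖∑ j ∈ Ioc u (u + n), ex (t * j)‖ ≤ 1 / (2 * dn t)

/-- PER: a sum over the multiples of `m` modulo `x` (`d = gcd(m, x)`): the nonzero values of `1 / (2 dn (m j / x))` -/
def S_PER : Prop := ∀ (x : ℕ) (m v : ℤ), 1 ≤ x →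
  ∑ j ∈ (Ico v (v + x)).filter (fun j => ¬ (x : ℤ) ∣ m * j), 1 / (2 * dn (((m * j : ℤ) : ℝ) / x)) ≤
    x * (1 + Real.log x)

/-- WEY: Weyl's inequality for quadratic polynomials -/
def S_WEY : Prop := ∀ (L : ℝ) (x : ℕ) (A B h u : ℤ) (n : ℕ), 1 ≤ x → (x : ℝ) ≤ L → (n : ℝ) ≤ L → A ≠ 0 →
  ‖∑ γ ∈ Ioc u (u + n), ex (((h * (A * γ ^ 2 + B * γ) : ℤ) : ℝ) / x)‖ ≤
    4 * (L / √(x : ℝ)) * √(|(A : ℝ)| * (1 + Real.log L) * (Int.gcd h x : ℝ))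

/-- EQS: a sum over the frequencies -/
def S_EQS : Prop := ∀ (x : ℕ) (k : ℤ), 1 ≤ x →
  ∑ h ∈ (range x).filter (fun h : ℕ => ¬ (x : ℤ) ∣ h * k),
    √(Nat.gcd h x : ℝ) / (2 * dn (((h * k : ℤ) : ℝ) / x)) ≤ x * (1 + Real.log x) * tn x

/-- EQ: equidistribution of the values of a quadratic polynomial -/
def S_EQ : Prop := ∀ (L : ℝ) (x : ℕ) (A B k e u s : ℤ) (n t : ℕ), 1 ≤ x → (x : ℝ) ≤ L → (n : ℝ) ≤ L → A ≠ 0 →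
  ((((Ioc u (u + n)) ×ˢ (Ioc s (s + t))).filter
      (fun z : ℤ × ℤ => (x : ℤ) ∣ A * z.1 ^ 2 + B * z.1 + k * z.2 + e)).card : ℝ) ≤
    (Int.gcd x k : ℝ) / x * t *
      (((Ioc u (u + n)).filter (fun γ : ℤ => (Int.gcd x k : ℤ) ∣ A * γ ^ 2 + B * γ + e)).card : ℝ) +
    4 * (L / √(x : ℝ)) * √|(A : ℝ)| * (1 + Real.log L) ^ 2 * tn x

/-! ### Boxes, congruences -/

/-- The box of type `T` and size `L` -/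
structure Bx (L : ℝ) (T : ℕ) (B : Tup ℤ) : Prop where
  x : |(B.x : ℝ)| * (T : ℝ) ^ 2 ≤ L
  y : |(B.y : ℝ)| * (T : ℝ) ≤ L
  c : |(B.c : ℝ)| ≤ L
  z : |(B.z : ℝ)| ≤ L * T
  w : |(B.w : ℝ)| ≤ L * (T : ℝ) ^ 2

/-- Congruence modulo `M` -/
structure Cgr (M : ℕ) (β B : Tup ℤ) : Prop where
  x : (M : ℤ) ∣ B.x - β.x
  y : (M : ℤ) ∣ B.y - β.y
  c : (M : ℤ) ∣ B.c - β.c
  z : (M : ℤ) ∣ B.z - β.z
  w : (M : ℤ) ∣ B.w - β.w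

/-- RHO: solutions of a quadratic congruence in an arithmetic progression; uniform in `a` -/
def S_RHO : Prop := ∀ (g M : ℕ) (a r u : ℤ) (n : ℕ), 1 ≤ g → 1 ≤ M → Nat.Coprime g M →
  (((Ioc u (u + n)).filter (fun c : ℤ => (M : ℤ) ∣ c - r ∧ (g : ℤ) ∣ 3 * c ^ 2 + a)).card : ℝ) ≤
    12 * tn g * √(g : ℝ) * ((n : ℝ) / (g * M) + 1)

/-- FIB: the tuples in a class and in a box with given `x`, `y` -/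
def S_FIB : Prop := ∃ C : ℝ, 0 < C ∧ ∀ (L : ℝ) (M T n : ℕ) (a x y : ℤ) (β : Tup ℤ), 1 ≤ L → 1 ≤ M → Odd M → 1 ≤ T →
  1 ≤ n → x ≠ 0 → y ≠ 0 → Nat.Coprime (Int.gcd x y) M → (M : ℤ) ∣ x - β.x → (M : ℤ) ∣ y - β.y →
  (M : ℤ) ∣ chA β - a → |(x : ℝ)| * (T : ℝ) ^ 2 ≤ L → |(y : ℝ)| * (T : ℝ) ≤ L →
  36 * L ≤ n * (|(x : ℝ)| * (T : ℝ) ^ 2) →
  ∀ S : Finset (Tup ℤ), (∀ B ∈ S, B.x = x ∧ B.y = y ∧ chA B = a ∧ Cgr M β B ∧ Bx L T B) →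
  (S.card : ℝ) ≤ C * (tn (Int.gcd x (2 * y)) * √(Int.gcd x (2 * y) : ℝ)) * ((Int.gcd x (2 * y) : ℝ) / |(x : ℝ)|) *
      (L * (T * √(T : ℝ)) * √(|(x : ℝ)| / |(y : ℝ)|) / M + 1) * (L / ((Int.gcd x (2 * y) : ℝ) * M) + 1) +
    C * n * √(M : ℝ) * (L / √|(x : ℝ)|) * (1 + Real.log (3 * L)) ^ 2 * tn x.natAbs

/-- W1: the main sum, in a class; the constant is absolute -/
def S_W1 : Prop := ∃ C : ℝ, 0 < C ∧ ∀ (M : ℕ) (ε : ℝ), 1 ≤ M → Odd M → 0 < ε → ∃ N₀ : ℕ, ∀ P R : ℕ, N₀ ≤ P → N₀ ≤ R →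
  ∀ x₀ y₀ : ℤ, ∑ x ∈ (Icc 1 P).filter (fun x : ℕ => (M : ℤ) ∣ x - x₀),
    ∑ y ∈ (Icc 1 R).filter (fun y : ℕ => (M : ℤ) ∣ y - y₀ ∧ Nat.Coprime (Nat.gcd x (2 * y)) M),
      (tn (Nat.gcd x (2 * y)) : ℝ) * √(Nat.gcd x (2 * y) : ℝ) / √((x : ℝ) * y) ≤
    (C / (M : ℝ) ^ 2 + ε) * √((P : ℝ) * R)

/-- W2: a cruder sum -/
def S_W2 : Prop := ∃ C : ℝ, 0 < C ∧ ∀ P R : ℕ, 1 ≤ P → 1 ≤ R →
  ∑ x ∈ Icc 1 P, ∑ y ∈ Icc 1 R, (tn (Nat.gcd x (2 * y)) : ℝ) * (Nat.gcd x (2 * y) * √(Nat.gcd x (2 * y) : ℝ)) ≤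
    C * (P * R) * √(P : ℝ) * (1 + Real.log P)

/-- REG: the tuples in a class and in a box, `x` and `y` not small; `K` is absolute -/
def S_REG : Prop := ∃ K : ℝ, 0 < K ∧ ∀ (M T : ℕ) (a : ℤ) (δ ε : ℝ), 1 ≤ M → Odd M → 1 ≤ T → 0 < δ → 0 < ε →
  ∃ L₀ : ℝ, ∀ L ≥ L₀, ∀ β : Tup ℤ, (M : ℤ) ∣ chA β - a → Nat.Coprime (Int.gcd β.x β.y) M →
  ∀ S : Finset (Tup ℤ), (∀ B ∈ S, chA B = a ∧ Cgr M β B ∧ Bx L T B ∧ δ * L ≤ |(B.x : ℝ)| * (T : ℝ) ^ 2 ∧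
    δ * L ≤ |(B.y : ℝ)| * (T : ℝ)) → (S.card : ℝ) ≤ (K / (M : ℝ) ^ 4 + ε) * L ^ 3

/-- TRV: the tuples in a box with small `x` or `y` -/
def S_TRV : Prop := ∀ T : ℕ, 1 ≤ T → ∃ K : ℝ, 0 < K ∧ ∀ (a : ℤ) (δ ε : ℝ), 0 < δ → δ ≤ 1 → 0 < ε →
  ∃ L₀ : ℝ, ∀ L ≥ L₀, ∀ S : Finset (Tup ℤ), (∀ B ∈ S, B.x ≠ 0 ∧ chA B = a ∧ Bx L T B ∧
    (|(B.x : ℝ)| * (T : ℝ) ^ 2 ≤ δ * L ∨ |(B.y : ℝ)| * (T : ℝ) ≤ δ * L)) →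
    (S.card : ℝ) ≤ (K * √δ + ε) * L ^ 3

/-- CLS: the tuples in a class and in a box; `K` is absolute -/
def S_CLS : Prop := ∃ K : ℝ, 0 < K ∧ ∀ (M T : ℕ) (a : ℤ) (ε : ℝ), 1 ≤ M → Odd M → 1 ≤ T → 0 < ε →
  ∃ L₀ : ℝ, ∀ L ≥ L₀, ∀ β : Tup ℤ, (M : ℤ) ∣ chA β - a → Nat.Coprime (Int.gcd β.x β.y) M →
  ∀ S : Finset (Tup ℤ), (∀ B ∈ S, B.x ≠ 0 ∧ chA B = a ∧ Cgr M β B ∧ Bx L T B) →
    (S.card : ℝ) ≤ (K / (M : ℝ) ^ 4 + ε) * L ^ 3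

/-! ### Few bad curves on a line -/

/-- BOXL: a box, with the conditions at the primes in `S`; `T` is fixed. `K` depends on `κ` only. -/
def S_BOXL : Prop := ∀ κ : ℕ, ∃ K : ℕ, ∀ (a : ℤ) (S : Finset ℤ) (s : ℤ → ℤ), GoodS S s → (∀ Q ∈ S, Q ∣ a - s Q) →
  ∀ T : ℕ, 1 ≤ T → ∃ X₀ : ℕ, ∀ X ≥ X₀, {B : Tup ℤ | Xset κ X T S s B ∧ chA B = a}.Finite ∧
  ((2 ^ S.card * (∏ Q ∈ S, Q) * ({B : Tup ℤ | Xset κ X T S s B ∧ chA B = a}.ncard : ℤ)) : ℤ) ≤ K * X ^ 3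

/-- BX0: the trivial bound, uniform -/
def S_BX0 : Prop := ∀ κ : ℕ, ∃ K : ℕ, ∀ (a : ℤ) (S : Finset ℤ) (s : ℤ → ℤ) (X T : ℕ), 1 ≤ T → 1 ≤ X →
  {B : Tup ℤ | Xset κ X T S s B ∧ chA B = a}.Finite ∧ {B : Tup ℤ | Xset κ X T S s B ∧ chA B = a}.ncard ≤ K * X ^ 3

/-- ORBL: every `b` comes from at least `T` tuples of a larger box -/
def S_ORBL : Prop := ∀ (κ : ℕ) (a : ℤ) (S : Finset ℤ) (s : ℤ → ℤ) (X T : ℕ), 1 ≤ T →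
  {B : Tup ℤ | Xset (29 * κ) X T S s B ∧ chA B = a}.Finite →
  {b : ℤ | ∃ B : Tup ℤ, Xset κ X T S s B ∧ chA B = a ∧ chB B = b}.ncard * T ≤
    {B : Tup ℤ | Xset (29 * κ) X T S s B ∧ chA B = a}.ncard

/-- BADL: few bad curves on the line; `K` depends on `κ` only -/
def S_BADL : Prop := ∀ κ : ℕ, ∃ K : ℕ, ∀ (a : ℤ) (S : Finset ℤ) (s : ℤ → ℤ), GoodS S s → (∀ Q ∈ S, Q ∣ a - s Q) →
  ∃ X₀ : ℕ, ∀ X ≥ X₀, {b : ℤ | LBad κ X S s a b}.Finite ∧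
  ((2 ^ S.card * (∏ Q ∈ S, Q) * ({b : ℤ | LBad κ X S s a b}.ncard : ℤ)) : ℤ) ≤ K * X ^ 3

/-! ### The family on a line -/

/-- PELL: few values of `4 a ^ 3 + 27 b ^ 2` are divisible by the square of a large number -/
def S_PELL : Prop := ∀ (a : ℤ) (ε : ℝ), 0 < a → 0 < ε → ∃ Y₀ : ℕ, ∀ Y ≥ Y₀,
  (((Icc (-(Y : ℤ)) Y).filter (fun b => ∃ n : ℤ, (Y : ℤ) < n ∧ n ^ 2 ∣ 4 * a ^ 3 + 27 * b ^ 2)).card : ℝ) ≤ ε * Y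

/-- FAML: many curves of the family on the line -/
def S_FAML : Prop := ∀ (T : Finset ℤ) (A B : ℤ → ℤ), GoodT T A B → ∀ a : ℤ, 0 < a → (∀ P ∈ T, P ∣ a - A P) →
  ∀ W : ℕ, 1 ≤ W →
  ∑ p ∈ a.natAbs.primeFactors.filter (fun p : ℕ => ¬ p ∣ W ∧ (p : ℤ) ∉ T), (1 / (p : ℝ)) ≤ 1 / 4 →
  ∀ (S : Finset ℤ) (s : ℤ → ℤ), GoodS S s → (∀ Q ∈ S, Q ∣ a - s Q) → Disjoint S T →
  (∀ Q ∈ S, ¬ Q ∣ W) → ∃ X₀ : ℕ, ∀ X ≥ X₀,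
    (X : ℝ) ^ 3 ≤ 32 * W * ((∏ P ∈ T, (P : ℝ)) * (∏ Q ∈ S, (Q : ℝ))) *
      ({b : ℤ | Fam X S s T A B a b ∧ (4 : ℤ) ∣ a - b}.ncard : ℝ)

/-- EXS1: primes modulo which `- a` is not a square -/
def S_EXS1 : Prop := ∀ a : ℤ, 0 < a → Odd a → ¬ IsSquare a → ∀ (T : Finset ℤ) (r : ℕ), ∃ S : Finset ℤ,
  GoodS S (fun _ => a) ∧ S.card = r ∧ Disjoint S T ∧ ∀ Q ∈ S, ¬ Q ∣ a

/-- EXA: integers in a class with at most one prime divisor (not small) outside the modulus -/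
def S_EXA : Prop := ∀ (m : ℕ) (r N : ℤ), 1 ≤ m → ∃ a : ℤ, N ≤ a ∧ 0 < a ∧ (m : ℤ) ∣ a - r ∧
  ∑ p ∈ a.natAbs.primeFactors.filter (fun p : ℕ => ¬ p ∣ m), (1 / (p : ℝ)) ≤ 1 / 4

end Pool.Agent.L0h45.LR
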