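import Pool.Agent.N922.PQ.Cnt2
import Pool.Agent.L0h45.LR.Stm

/-!
# LR: counting on a line
-/

set_option autoImplicit false
set_option linter.all false

open Polynomial IsDedekindDomain WeierstrassCurve WeierstrassCurve.Affine NumberField
open Pool.Agent.TH115.GD
open scoped Classical IntermediateField

namespace Pool.Agent.L0h45.LR

open Pool.Agent.N874.PP (Tup chA chB gq tau Two Ev Sq1 U0 sW IsBeta Rt)
open Pool.Agent.N874.PM (PLoc Lies SelR ShaR)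
open Pool.Agent.N922.PQ

/-- The conditions on the data of a line. -/
structure Dat (K : ℕ) (T : Finset ℤ) (A B : ℤ → ℤ) (a : ℤ) (W : ℕ) (S : Finset ℤ) (s : ℤ → ℤ) : Prop where
  gT : GoodT T A B
  pos : 0 < a
  ta : ∀ P ∈ T, P ∣ a - A P
  gW : 1 ≤ W
  sum : ∑ p ∈ a.natAbs.primeFactors.filter (fun p : ℕ => ¬ p ∣ W ∧ (p : ℤ) ∉ T), (1 / (p : ℝ)) ≤ 1 / 4
  gS : GoodS S s
  sa : ∀ Q ∈ S, Q ∣ a - s Q
  dis : Disjoint S T
  SW : ∀ Q ∈ S, ¬ Q ∣ (W : ℤ)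
  big : 64 * (K : ℝ) * W * (∏ P ∈ T, (P : ℝ)) ≤ 2 ^ S.card

/-- Many curves of the family on the line are not bad. -/
theorem good_line (hFAM : S_FAML) (hBAD : S_BADL) (κ : ℕ) : ∃ K : ℕ, ∀ (T : Finset ℤ) (A B : ℤ → ℤ) (a : ℤ) (W : ℕ)
    (S : Finset ℤ) (s : ℤ → ℤ), Dat K T A B a W S s → ∃ c : ℝ, 0 < c ∧ ∃ X₀ : ℕ, ∀ X ≥ X₀,
      c * (X : ℝ) ^ 3 ≤ ({b : ℤ | (Fam X S s T A B a b ∧ (4 : ℤ) ∣ a - b) ∧ ¬ LBad κ X S s a b}.ncard : ℝ) := by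
  obtain ⟨K, hK⟩ := hBAD κ
  refine ⟨K, fun T A B a W S s D => ?_⟩
  obtain ⟨X₁, h1⟩ := hFAM T A B D.gT a D.pos D.ta W D.gW D.sum S s D.gS D.sa D.dis D.SW
  obtain ⟨X₂, h2⟩ := hK a S s D.gS D.sa
  obtain ⟨P, hP⟩ : ∃ P : ℝ, P = ∏ Q ∈ S, (Q : ℝ) := ⟨_, rfl⟩
  obtain ⟨t, ht⟩ : ∃ t : ℝ, t = ∏ P ∈ T, (P : ℝ) := ⟨_, rfl⟩
  have hP0 : 0 < P := by
    rw [hP]
    exact Finset.prod_pos fun Q hQ => by
      have : (0 : ℝ) < Q := by exact_mod_cast (D.gS Q hQ).1.1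
      exact this
  have ht0 : 0 < t := by
    rw [ht]
    exact Finset.prod_pos fun Q hQ => by
      have : (0 : ℝ) < Q := by exact_mod_cast (D.gT.2.2 Q hQ).1.1
      exact this
  have hW0 : (0 : ℝ) < W := by exact_mod_cast D.gW
  refine ⟨1 / (64 * W * t * P), by positivity, max X₁ X₂, fun X hX => ?_⟩
  have hF := h1 X ((le_max_left _ _).trans hX)
  obtain ⟨hfin, hB⟩ := h2 X ((le_max_right _ _).trans hX)
  have hd := Set.le_ncard_diff {b : ℤ | LBad κ X S s a b}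
    {b : ℤ | Fam X S s T A B a b ∧ (4 : ℤ) ∣ a - b} hfin
  have e : {b : ℤ | Fam X S s T A B a b ∧ (4 : ℤ) ∣ a - b} \ {b : ℤ | LBad κ X S s a b} =
      {b : ℤ | (Fam X S s T A B a b ∧ (4 : ℤ) ∣ a - b) ∧ ¬ LBad κ X S s a b} := rfl
  rw [e] at hd
  obtain ⟨F, hFe⟩ : ∃ F : ℕ, F = {b : ℤ | Fam X S s T A B a b ∧ (4 : ℤ) ∣ a - b}.ncard := ⟨_, rfl⟩
  obtain ⟨Bd, hBe⟩ : ∃ F : ℕ, F = {b : ℤ | LBad κ X S s a b}.ncard := ⟨_, rfl⟩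
  obtain ⟨G, hGe⟩ : ∃ F : ℕ, F = {b : ℤ | (Fam X S s T A B a b ∧ (4 : ℤ) ∣ a - b) ∧ ¬ LBad κ X S s a b}.ncard :=
    ⟨_, rfl⟩
  rw [← hFe] at hF hd
  rw [← hBe] at hB hd
  rw [← hGe] at hd ⊢
  rw [← hP, ← ht] at hF
  have hbig := D.big
  rw [← ht] at hbig
  have hd' : (F : ℝ) ≤ Bd + G := by
    have : F ≤ Bd + G := by omega
    exact_mod_cast this
  have hB' : (2 : ℝ) ^ S.card * P * Bd ≤ K * (X : ℝ) ^ 3 := by
    have h3 : ((2 ^ S.card * (∏ Q ∈ S, Q) * (Bd : ℤ) : ℤ) : ℝ) ≤ ((K * X ^ 3 : ℤ) : ℝ) := by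
      exact_mod_cast hB
    have e2 : ((2 ^ S.card * (∏ Q ∈ S, Q) * (Bd : ℤ) : ℤ) : ℝ) = (2 : ℝ) ^ S.card * P * Bd := by
      rw [hP]
      push_cast
      ring
    rw [e2] at h3
    refine h3.trans (le_of_eq ?_)
    push_cast
    ring
  have hX3 : (0 : ℝ) ≤ (X : ℝ) ^ 3 := by positivity
  have hPB0 : (0 : ℝ) ≤ P * Bd := by positivity
  rcases Nat.eq_zero_or_pos K with hK0 | hK0
  · rw [hK0] at hB'
    have h4 : (2 : ℝ) ^ S.card * (P * Bd) ≤ 0 := by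
      rw [← mul_assoc]
      simpa using hB'
    have h5 : P * Bd ≤ 0 := by
      have h6 : (0 : ℝ) < 2 ^ S.card := by positivity
      by_contra h7
      push Not at h7
      have := mul_pos h6 h7
      linarith
    have h6 : (P * F : ℝ) ≤ P * G := by
      have : (P : ℝ) * F ≤ P * Bd + P * G := by
        rw [← mul_add]
        exact mul_le_mul_of_nonneg_left hd' hP0.le
      linarith
    rw [div_mul_eq_mul_div, one_mul, div_le_iff₀ (by positivity)]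
    calc (X : ℝ) ^ 3 ≤ 32 * W * (t * P) * F := hF
      _ = 32 * W * t * (P * F) := by ring
      _ ≤ 32 * W * t * (P * G) := by gcongr
      _ ≤ 64 * W * t * (P * G) := by
          have : (0 : ℝ) ≤ W * t * (P * G) := by positivity
          linarith
      _ = G * (64 * W * t * P) := by ring
  · have h5 : 64 * W * t * (P * Bd) ≤ (X : ℝ) ^ 3 := by
      have hK1 : (0 : ℝ) < K := by exact_mod_cast hK0
      have h6 : 64 * (K : ℝ) * W * t * (P * Bd) ≤ K * (X : ℝ) ^ 3 := by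
        calc 64 * (K : ℝ) * W * t * (P * Bd) ≤ 2 ^ S.card * (P * Bd) :=
              mul_le_mul_of_nonneg_right hbig hPB0
          _ = 2 ^ S.card * P * Bd := by ring
          _ ≤ _ := hB'
      have h7 : (K : ℝ) * (64 * W * t * (P * Bd)) ≤ K * (X : ℝ) ^ 3 := by
        calc (K : ℝ) * (64 * W * t * (P * Bd)) = 64 * (K : ℝ) * W * t * (P * Bd) := by ring
          _ ≤ _ := h6
      exact le_of_mul_le_mul_left h7 hK1
    have h6 : (P * F : ℝ) ≤ P * Bd + P * G := by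
      rw [← mul_add]
      exact mul_le_mul_of_nonneg_left hd' hP0.le
    rw [div_mul_eq_mul_div, one_mul, div_le_iff₀ (by positivity)]
    have h8 : (X : ℝ) ^ 3 ≤ 32 * W * t * (P * Bd) + 32 * W * t * (P * G) := by
      calc (X : ℝ) ^ 3 ≤ 32 * W * (t * P) * F := hF
        _ = 32 * W * t * (P * F) := by ring
        _ ≤ 32 * W * t * (P * Bd + P * G) := by gcongr
        _ = _ := by ring
    have h9 : (G : ℝ) * (64 * W * t * P) = 2 * (32 * W * t * (P * G)) := by ring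
    rw [h9]
    nlinarith

/-- The main theorem on a line, from the parts. -/
theorem line (H : Parts2) (hLB : S_LB) (hFAM : S_FAML) (hBAD : S_BADL)
    (hGFR : Pool.Agent.N874.PM.S_GFR) (hFINM : S_FINM) (hTOR : S_TOR) : ∃ K : ℕ,
    ∀ (M : Type) [Field M] [NumberField M] [IsGalois ℚ M] (R : Type) [CommRing R] [IsDedekindDomain R] [Algebra R M]
    [IsFractionRing R M] [IsIntegralClosure R ℤ M] (n : ℕ), Module.finrank ℚ M = 2 ^ n →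
    (∀ w : HeightOneSpectrum R, Ov 2 w → w.valuation M 2 = WithZero.exp (-1 : ℤ)) →
    ∀ (γ : M) (g : ℤ[X]) (δ : ℤ), Gen ℚ γ g δ →
    ∀ (T : Finset ℤ) (A B : ℤ → ℤ) (a : ℤ) (W : ℕ) (S : Finset ℤ) (s : ℤ → ℤ), Dat K T A B a W S s →
    (∀ P : ℤ, IsPr P → P ∣ δ → P ∈ T) → (∀ Q ∈ S, SplitMod Q g) →
    ∃ c : ℝ, 0 < c ∧ ∃ X₀ : ℕ, ∀ X ≥ X₀, c * (X : ℝ) ^ 3 ≤ ({b : ℤ | |b| ≤ (X : ℤ) ^ 3 ∧ ∃ J ⊆ S,
      GoodV (M := M) R (a * (∏ Q ∈ J, Q) ^ 2, b * (∏ Q ∈ J, Q) ^ 3)}.ncard : ℝ) := by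
  obtain ⟨κ, hLB'⟩ := hLB
  obtain ⟨K, hK⟩ := good_line hFAM hBAD κ
  refine ⟨K, fun M _ _ _ R _ _ _ _ _ n hM hur γ g δ hG T A B a W S s D hδ hsp => ?_⟩
  haveI : Algebra.IsIntegral ℤ R := IsIntegralClosure.isIntegral_algebra ℤ M
  haveI : CharZero R := charZero_of R M
  obtain ⟨w₀, hw₀⟩ := exists_over R
  obtain ⟨c, hc, X₀, h⟩ := hK T A B a W S s D
  refine ⟨c, hc, X₀, fun X hX => (h X hX).trans ?_⟩
  have hfin : {b : ℤ | |b| ≤ (X : ℤ) ^ 3 ∧ ∃ J ⊆ S,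
      GoodV (M := M) R (a * (∏ Q ∈ J, Q) ^ 2, b * (∏ Q ∈ J, Q) ^ 3)}.Finite := by
    refine (Set.finite_Icc (-(X : ℤ) ^ 3) ((X : ℤ) ^ 3)).subset ?_
    rintro b ⟨hb, -⟩
    exact abs_le.1 hb
  have hsub : {b : ℤ | (Fam X S s T A B a b ∧ (4 : ℤ) ∣ a - b) ∧ ¬ LBad κ X S s a b} ⊆ {b : ℤ | |b| ≤ (X : ℤ) ^ 3 ∧ ∃ J ⊆ S,
      GoodV (M := M) R (a * (∏ Q ∈ J, Q) ^ 2, b * (∏ Q ∈ J, Q) ^ 3)} := by
    rintro b ⟨⟨hpF, hp4⟩, hnb⟩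
    refine ⟨hpF.db, ?_⟩
    obtain ⟨J, hJ, hsel⟩ := selR2 H hLB' M R hM hur D.gS hpF hp4 hnb D.gT hG hsp hδ D.dis
    refine ⟨J, hJ, ?_⟩
    have hD0 : (∏ Q ∈ J, Q) ≠ 0 := by
      rw [Finset.prod_ne_zero_iff]
      exact fun Q hQ => (D.gS Q (hJ hQ)).1.2.ne_zero
    have h6M : (6 : M) ≠ 0 := by norm_num
    have hdZ : 4 * (a * (∏ Q ∈ J, Q) ^ 2) ^ 3 + 27 * (b * (∏ Q ∈ J, Q) ^ 3) ^ 2 ≠ 0 := by
      have h1 : 0 < a := D.pos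
      have h2 : 0 < (∏ Q ∈ J, Q) ^ 2 := by positivity
      have h3 : 0 < (a * (∏ Q ∈ J, Q) ^ 2) ^ 3 := by positivity
      have h4 : 0 ≤ (b * (∏ Q ∈ J, Q) ^ 3) ^ 2 := by positivity
      linarith
    have hdM : 4 * (((a * (∏ Q ∈ J, Q) ^ 2 : ℤ)) : M) ^ 3 +
        27 * (((b * (∏ Q ∈ J, Q) ^ 3 : ℤ)) : M) ^ 2 ≠ 0 := by
      exact_mod_cast hdZ
    obtain ⟨h2, h3⟩ := hGFR M R _ _ h6M hdM hsel
    have hfin := hFINM M _ _ hdM h2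
    have hD8 : (∏ Q ∈ J, Q) % 8 = 1 := prod_mod8 fun Q hQ => (D.gS Q (hJ hQ)).2.1
    obtain ⟨ha, hb⟩ := odd_of (fam_nt D.gT hpF D.gT.1)
    have hAodd : Odd (a * (∏ Q ∈ J, Q) ^ 2) := by
      refine ha.mul (Odd.pow ?_)
      rw [Int.odd_iff]
      omega
    have h4 : (4 : ℤ) ∣ a * (∏ Q ∈ J, Q) ^ 2 - b * (∏ Q ∈ J, Q) ^ 3 := by
      obtain ⟨k, hk⟩ : ∃ k, (∏ Q ∈ J, Q) = 8 * k + 1 := ⟨(∏ Q ∈ J, Q) / 8, by omega⟩
      obtain ⟨l, hl⟩ := hp4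
      have e : a = b + 4 * l := by linarith
      rw [hk, e]
      exact ⟨l * (8 * k + 1) ^ 2 - 2 * k * b * (8 * k + 1) ^ 2, by ring⟩
    have htor := hTOR M R w₀ (hur w₀ hw₀) _ _ hAodd h4 hfin (by
      haveI := hfin
      exact odd_card (G := Pt (sW (((a * (∏ Q ∈ J, Q) ^ 2 : ℤ)) : M)
        (((b * (∏ Q ∈ J, Q) ^ 3 : ℤ)) : M)) M) h2)
    exact ⟨hsel, htor, h3⟩
  exact_mod_cast Set.ncard_le_ncard hsub hfin

end Pool.Agent.L0h45.LR
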