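import Pool.Agent.N922.PQ.Final2
import Pool.Agent.L0h45.LR.Cnt

/-!
# LR: lines with a positive upper density of rank zero
-/

set_option autoImplicit false
set_option linter.all false

open Polynomial IsDedekindDomain WeierstrassCurve WeierstrassCurve.Affine NumberField
open Pool.Agent.TH115.GD
open scoped Classical IntermediateField

namespace Pool.Agent.L0h45.LR

open Pool.Agent.N874.PP (Tup chA chB gq tau Two Ev Sq1 U0 sW IsBeta Rt)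
open Pool.Agent.N874.PM (PLoc Lies SelR ShaR)
open Pool.Agent.N922.PQ

/-- the largest cube -/
theorem cube_le (X : ℕ) (hX : 1 ≤ X) : ∃ n : ℕ, n ^ 3 ≤ X ∧ X ≤ 8 * n ^ 3 := by
  obtain ⟨n, hn⟩ : ∃ n, n = Nat.findGreatest (fun n => n ^ 3 ≤ X) X := ⟨_, rfl⟩
  have h1 : n ^ 3 ≤ X := by
    rw [hn]
    exact Nat.findGreatest_spec (P := fun n => n ^ 3 ≤ X) (m := 0) (Nat.zero_le _) (by simp)
  have h2 : 1 ≤ n := by
    rw [hn]
    exact Nat.le_findGreatest hX (by simpa using hX)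
  have h3 : X < (n + 1) ^ 3 := by
    by_contra h
    push Not at h
    have h4 : n + 1 ≤ X := by
      refine le_trans ?_ h
      exact Nat.le_self_pow (by norm_num) _
    have h5 : n + 1 ≤ n := by
      conv_rhs => rw [hn]
      exact Nat.le_findGreatest h4 h
    omega
  refine ⟨n, h1, h3.le.trans ?_⟩
  calc (n + 1) ^ 3 ≤ (2 * n) ^ 3 := Nat.pow_le_pow_left (by omega) 3
    _ = 8 * n ^ 3 := by ring

/-- The conclusions for the family of the twists. -/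
theorem concl {S : Finset ℤ} (hS : ∀ Q ∈ S, 0 < Q) {a : ℤ} {good : ℤ × ℤ → Prop} {c : ℝ} (hc : 0 < c) {X₀ : ℕ}
    (h : ∀ X ≥ X₀, c * (X : ℝ) ^ 3 ≤ ({b : ℤ | |b| ≤ (X : ℤ) ^ 3 ∧ ∃ J ⊆ S,
      good (a * (∏ Q ∈ J, Q) ^ 2, b * (∏ Q ∈ J, Q) ^ 3)}.ncard : ℝ)) :
    (∃ (𝒟 : Finset ℤ) (c : ℝ), (∀ D ∈ 𝒟, 0 < D) ∧ 0 < c ∧ ∃ X₀ : ℕ, ∀ X : ℕ, X₀ ≤ X →
      c * (X : ℝ) ≤ ({b : ℤ | |b| ≤ (X : ℤ) ∧ ∃ D ∈ 𝒟, good (a * D ^ 2, b * D ^ 3)}.ncard : ℝ)) ∧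
    ∃ (D : ℤ) (c : ℝ), 0 < D ∧ 0 < c ∧ ∀ X₀ : ℕ, ∃ X : ℕ, X₀ ≤ X ∧
      c * (X : ℝ) ≤ ({t : ℤ | |t| ≤ (X : ℤ) ∧ good (a * D ^ 2, t)}.ncard : ℝ) := by
  refine ⟨⟨S.powerset.image (fun J => ∏ Q ∈ J, Q), c / 8, ?_, by positivity, X₀ ^ 3 * 8 + 1, ?_⟩, ?_⟩
  · intro D hD
    rw [Finset.mem_image] at hD
    obtain ⟨J, hJ, rfl⟩ := hD
    rw [Finset.mem_powerset] at hJ
    exact Finset.prod_pos fun Q hQ => hS Q (hJ hQ)
  · intro X hX
    obtain ⟨n, h1, h2⟩ := cube_le X (by omega)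
    have hn : X₀ ≤ n := by
      have h3 : X₀ ^ 3 < n ^ 3 := by omega
      exact (lt_of_pow_lt_pow_left₀ 3 (Nat.zero_le _) h3).le
    have h4 := h n hn
    have hfin : {b : ℤ | |b| ≤ (X : ℤ) ∧ ∃ D ∈ S.powerset.image (fun J => ∏ Q ∈ J, Q),
        good (a * D ^ 2, b * D ^ 3)}.Finite := by
      refine (Set.finite_Icc (-(X : ℤ)) X).subset ?_
      rintro b ⟨hb, -⟩
      exact abs_le.1 hb
    have hsub : {b : ℤ | |b| ≤ (n : ℤ) ^ 3 ∧ ∃ J ⊆ S, good (a * (∏ Q ∈ J, Q) ^ 2, b * (∏ Q ∈ J, Q) ^ 3)} ⊆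
        {b : ℤ | |b| ≤ (X : ℤ) ∧ ∃ D ∈ S.powerset.image (fun J => ∏ Q ∈ J, Q), good (a * D ^ 2, b * D ^ 3)} := by
      rintro b ⟨hb, J, hJ, hg⟩
      refine ⟨hb.trans (by exact_mod_cast h1), ∏ Q ∈ J, Q, ?_, hg⟩
      rw [Finset.mem_image]
      exact ⟨J, Finset.mem_powerset.2 hJ, rfl⟩
    have h5 := Set.ncard_le_ncard hsub hfin
    have h6 : (X : ℝ) ≤ 8 * (n : ℝ) ^ 3 := by exact_mod_cast h2
    calc c / 8 * (X : ℝ) ≤ c / 8 * (8 * (n : ℝ) ^ 3) := by gcongr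
      _ = c * (n : ℝ) ^ 3 := by ring
      _ ≤ _ := h4
      _ ≤ _ := by exact_mod_cast h5
  · -- one twist
    obtain ⟨N, hN⟩ : ∃ N : Finset ℤ → ℕ → Set ℤ, N = fun J (X : ℕ) => {b : ℤ | |b| ≤ (X : ℤ) ^ 3 ∧
      good (a * (∏ Q ∈ J, Q) ^ 2, b * (∏ Q ∈ J, Q) ^ 3)} := ⟨_, rfl⟩
    have hNfin : ∀ J X, (N J X).Finite := by
      intro J X
      rw [hN]
      refine (Set.finite_Icc (-(X : ℤ) ^ 3) ((X : ℤ) ^ 3)).subset ?_
      rintro b ⟨hb, -⟩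
      exact abs_le.1 hb
    have hex : ∃ J ∈ S.powerset, ∀ X₁ : ℕ, ∃ X : ℕ, X₁ ≤ X ∧ c / 2 ^ S.card * (X : ℝ) ^ 3 ≤ ((N J X).ncard : ℝ) := by
      by_contra hcon
      push Not at hcon
      choose! f hf using hcon
      obtain ⟨X, hXe⟩ : ∃ X, X = X₀ + S.powerset.sup f := ⟨_, rfl⟩
      have h1 := h X (by omega)
      have h2 : {b : ℤ | |b| ≤ (X : ℤ) ^ 3 ∧ ∃ J ⊆ S, good (a * (∏ Q ∈ J, Q) ^ 2, b * (∏ Q ∈ J, Q) ^ 3)} ⊆
          ⋃ J ∈ S.powerset, N J X := by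
        rintro b ⟨hb, J, hJ, hg⟩
        rw [Set.mem_iUnion₂]
        refine ⟨J, Finset.mem_powerset.2 hJ, ?_⟩
        rw [hN]
        exact ⟨hb, hg⟩
      have h3 : (⋃ J ∈ S.powerset, N J X).ncard ≤ ∑ J ∈ S.powerset, (N J X).ncard := by
        have key : ∀ U : Finset (Finset ℤ), (⋃ J ∈ U, N J X).ncard ≤ ∑ J ∈ U, (N J X).ncard := by
          intro U
          induction U using Finset.induction_on with
          | empty => simp
          | insert J U hJ ih =>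
            rw [Finset.set_biUnion_insert, Finset.sum_insert hJ]
            exact (Set.ncard_union_le _ _).trans (Nat.add_le_add_left ih _)
        exact key _
      have hfin : (⋃ J ∈ S.powerset, N J X).Finite := Set.Finite.biUnion (Finset.finite_toSet _) fun J _ => hNfin J X
      have h4 := (Set.ncard_le_ncard h2 hfin).trans h3
      have h5 : c * (X : ℝ) ^ 3 ≤ ∑ J ∈ S.powerset, ((N J X).ncard : ℝ) := by
        refine h1.trans ?_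
        exact_mod_cast h4
      have h6 : ∑ J ∈ S.powerset, ((N J X).ncard : ℝ) < ∑ J ∈ S.powerset, c / 2 ^ S.card * (X : ℝ) ^ 3 := by
        apply Finset.sum_lt_sum_of_nonempty ⟨∅, Finset.empty_mem_powerset S⟩
        intro J hJ
        refine hf J hJ X ?_
        have := Finset.le_sup (f := f) hJ
        omega
      rw [Finset.sum_const, Finset.card_powerset, nsmul_eq_mul] at h6
      have h7 : ((2 ^ S.card : ℕ) : ℝ) * (c / 2 ^ S.card * (X : ℝ) ^ 3) = c * (X : ℝ) ^ 3 := by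
        push_cast
        field_simp
      rw [h7] at h6
      linarith
    obtain ⟨J, hJ, hJX⟩ := hex
    rw [Finset.mem_powerset] at hJ
    obtain ⟨D, hD⟩ : ∃ D : ℤ, D = ∏ Q ∈ J, Q := ⟨_, rfl⟩
    have hD0 : 0 < D := by
      rw [hD]
      exact Finset.prod_pos fun Q hQ => hS Q (hJ hQ)
    obtain ⟨d, hd⟩ : ∃ d : ℕ, (d : ℤ) = D := ⟨D.toNat, Int.toNat_of_nonneg hD0.le⟩
    have hd1 : 1 ≤ d := by
      rw [← hd] at hD0
      exact_mod_cast hD0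
    refine ⟨D, c / 2 ^ S.card / (d : ℝ) ^ 3, hD0, by positivity, fun X₁ => ?_⟩
    obtain ⟨X, hX, hXc⟩ := hJX X₁
    refine ⟨d ^ 3 * X ^ 3, ?_, ?_⟩
    · rcases Nat.eq_zero_or_pos X with h0 | h0
      · omega
      · calc X₁ ≤ X := hX
          _ ≤ X ^ 3 := Nat.le_self_pow (by norm_num) _
          _ ≤ d ^ 3 * X ^ 3 := Nat.le_mul_of_pos_left _ (by positivity)
    · have e : c / 2 ^ S.card / (d : ℝ) ^ 3 * ((d ^ 3 * X ^ 3 : ℕ) : ℝ) = c / 2 ^ S.card * (X : ℝ) ^ 3 := by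
        have : (d : ℝ) ≠ 0 := by positivity
        push_cast
        field_simp
      rw [e]
      refine hXc.trans ?_
      have hfin : {t : ℤ | |t| ≤ ((d ^ 3 * X ^ 3 : ℕ) : ℤ) ∧ good (a * D ^ 2, t)}.Finite := by
        refine (Set.finite_Icc (-((d ^ 3 * X ^ 3 : ℕ) : ℤ)) ((d ^ 3 * X ^ 3 : ℕ) : ℤ)).subset ?_
        rintro b ⟨hb, -⟩
        exact abs_le.1 hb
      have h9 : (N J X).ncard ≤ {t : ℤ | |t| ≤ ((d ^ 3 * X ^ 3 : ℕ) : ℤ) ∧ good (a * D ^ 2, t)}.ncard := by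
        refine Set.ncard_le_ncard_of_injOn (fun b => b * D ^ 3) ?_ ?_ hfin
        · intro b hb
          rw [hN] at hb
          obtain ⟨h1, h2⟩ := hb
          rw [← hD] at h2
          refine ⟨?_, h2⟩
          show |b * D ^ 3| ≤ ((d ^ 3 * X ^ 3 : ℕ) : ℤ)
          rw [abs_mul, abs_of_pos (by positivity : 0 < D ^ 3), ← hd]
          push_cast
          rw [mul_comm]
          gcongr
        · intro b _ b' _ he
          simp only at he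
          exact mul_right_cancel₀ (by positivity) he
      exact_mod_cast h9

theorem line0 (hFAM : S_FAML) (hBAD : S_BADL) : ∃ K : ℕ,
    ∀ (M : Type) [Field M] [NumberField M] [IsGalois ℚ M] (R : Type) [CommRing R] [IsDedekindDomain R] [Algebra R M]
    [IsFractionRing R M] [IsIntegralClosure R ℤ M] (n : ℕ), Module.finrank ℚ M = 2 ^ n →
    (∀ w : HeightOneSpectrum R, Ov 2 w → w.valuation M 2 = WithZero.exp (-1 : ℤ)) →
    ∀ (γ : M) (g : ℤ[X]) (δ : ℤ), Gen ℚ γ g δ →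
    ∀ (T : Finset ℤ) (A B : ℤ → ℤ) (a : ℤ) (W : ℕ) (S : Finset ℤ) (s : ℤ → ℤ), Dat K T A B a W S s →
    (∀ P : ℤ, IsPr P → P ∣ δ → P ∈ T) → (∀ Q ∈ S, SplitMod Q g) →
    ∃ c : ℝ, 0 < c ∧ ∃ X₀ : ℕ, ∀ X ≥ X₀, c * (X : ℝ) ^ 3 ≤ ({b : ℤ | |b| ≤ (X : ℤ) ^ 3 ∧ ∃ J ⊆ S,
      GoodV (M := M) R (a * (∏ Q ∈ J, Q) ^ 2, b * (∏ Q ∈ J, Q) ^ 3)}.ncard : ℝ) :=
  line parts2 lb hFAM hBAD Pool.Agent.N650.PM.gfr Pool.Agent.N273.PQ.finm Pool.Agent.N137.PV.tor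

/-- The conclusion for the line `a`. -/
def Con (M R : Type) [Field M] [CommRing R] [IsDedekindDomain R] [Algebra R M] [IsFractionRing R M] (a : ℤ) : Prop :=
    (∃ (𝒟 : Finset ℤ) (c : ℝ), (∀ D ∈ 𝒟, 0 < D) ∧ 0 < c ∧ ∃ X₀ : ℕ, ∀ X : ℕ, X₀ ≤ X →
      c * (X : ℝ) ≤ ({b : ℤ | |b| ≤ (X : ℤ) ∧ ∃ D ∈ 𝒟, GoodV (M := M) R (a * D ^ 2, b * D ^ 3)}.ncard : ℝ)) ∧
    ∃ (D : ℤ) (c : ℝ), 0 < D ∧ 0 < c ∧ ∀ X₀ : ℕ, ∃ X : ℕ, X₀ ≤ X ∧
      c * (X : ℝ) ≤ ({t : ℤ | |t| ≤ (X : ℤ) ∧ GoodV (M := M) R (a * D ^ 2, t)}.ncard : ℝ)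

/-- Over `M`: for infinitely many `a`. -/
theorem finM (hFAM : S_FAML) (hBAD : S_BADL) (hEXA : S_EXA) (M : Type) [Field M] [NumberField M] [IsGalois ℚ M]
    (R : Type) [CommRing R] [IsDedekindDomain R] [Algebra R M]
    [IsFractionRing R M] [IsIntegralClosure R ℤ M] (n : ℕ) (hM : Module.finrank ℚ M = 2 ^ n)
    (hur : ∀ w : HeightOneSpectrum R, Ov 2 w → w.valuation M 2 = WithZero.exp (-1 : ℤ)) (N : ℤ) :
    ∃ a : ℤ, N ≤ a ∧ 0 < a ∧ Con M R a := by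
  obtain ⟨K, hK⟩ := line0 hFAM hBAD
  obtain ⟨γ, g, δ, hG, hdeg⟩ := Pool.Agent.N40.PQ.gen M
  obtain ⟨T₀, hT₀, hδ₀⟩ : ∃ T : Finset ℤ, (∀ P ∈ T, IsPr P) ∧
      ∀ P : ℤ, IsPr P → P ∣ δ → P ∈ T := by
    have hf : {P : ℤ | IsPr P ∧ P ∣ δ}.Finite := by
      refine (Set.finite_Icc (-|δ|) |δ|).subset ?_
      rintro P ⟨-, h⟩
      have h3 : |P| ≤ |δ| := Int.le_of_dvd (abs_pos.2 hG.ne) ((abs_dvd_abs P δ).2 h)
      exact abs_le.1 h3
    refine ⟨hf.toFinset, fun P hP => ?_, fun P h1 h2 => ?_⟩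
    · exact (hf.mem_toFinset.1 hP).1
    · exact hf.mem_toFinset.2 ⟨h1, h2⟩
  obtain ⟨T, A, B, hTT, hT⟩ := Pool.Agent.N954.PQ.tch T₀ hT₀
  have hδ : ∀ P : ℤ, IsPr P → P ∣ δ → P ∈ T := fun P h1 h2 => hTT (hδ₀ P h1 h2)
  obtain ⟨r, hr⟩ : ∃ r : ℕ, 64 * (K : ℝ) * (1 : ℕ) * (∏ P ∈ T, (P : ℝ)) < 2 ^ r :=
    pow_unbounded_of_one_lt _ (by norm_num)
  obtain ⟨S, s, hS, hcard, hdis, hsp⟩ := Pool.Agent.N40.PQ.spl M γ g δ hG hdeg T r
  have hTp : 0 < ∏ P ∈ T, P := Finset.prod_pos fun P hP => (hT.2.2 P hP).1.1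
  have hSp : 0 < ∏ Q ∈ S, Q := Finset.prod_pos fun Q hQ => (hS Q hQ).1.1
  obtain ⟨r₀, hr₀⟩ := Pool.Agent.N456.PQ.crt (W := T ∪ S) (fun Q hQ => by
    rcases Finset.mem_union.1 hQ with h | h
    · exact (hT.2.2 Q h).1
    · exact (hS Q h).1) (fun Q => if Q ∈ T then A Q else s Q)
  obtain ⟨m, hm⟩ : ∃ m : ℕ, (m : ℤ) = (∏ P ∈ T, P) * ∏ Q ∈ S, Q :=
    ⟨((∏ P ∈ T, P) * ∏ Q ∈ S, Q).toNat, Int.toNat_of_nonneg (by positivity)⟩
  have hm1 : 1 ≤ m := by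
    have : (0 : ℤ) < m := by rw [hm]; positivity
    exact_mod_cast this
  obtain ⟨a, ha1, ha2, ha3, ha4⟩ := hEXA m r₀ N hm1
  have hmT : ∀ P ∈ T, P ∣ a - A P := by
    intro P hP
    have h1 := hr₀ P (Finset.mem_union_left _ hP)
    simp only [hP, if_true] at h1
    have h2 : P ∣ a - r₀ := (((Finset.dvd_prod_of_mem (fun P => P) hP).mul_right _).trans (by rw [← hm])).trans ha3
    have := dvd_add h2 h1
    rwa [sub_add_sub_cancel] at this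
  have hmS : ∀ Q ∈ S, Q ∣ a - s Q := by
    intro Q hQ
    have h1 := hr₀ Q (Finset.mem_union_right _ hQ)
    have h3 : Q ∉ T := fun h => (Finset.disjoint_left.1 hdis hQ) h
    simp only [h3, if_false] at h1
    have h2 : Q ∣ a - r₀ := (((Finset.dvd_prod_of_mem (fun P => P) hQ).mul_left _).trans (by rw [← hm])).trans ha3
    have := dvd_add h2 h1
    rwa [sub_add_sub_cancel] at this
  have hD : Dat K T A B a 1 S s := by
    refine ⟨hT, ha2, hmT, le_refl _, ?_, hS, hmS, hdis, ?_, ?_⟩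
    · refine le_trans (Finset.sum_le_sum_of_subset_of_nonneg ?_ fun _ _ _ => by positivity) ha4
      intro p hp
      rw [Finset.mem_filter] at hp ⊢
      refine ⟨hp.1, fun hpm => ?_⟩
      have hpp := (Nat.mem_primeFactors.1 hp.1).1
      have hpa : (p : ℤ) ∣ a := by
        rw [Int.natCast_dvd]
        exact (Nat.mem_primeFactors.1 hp.1).2.1
      have hpZ : Prime (p : ℤ) := Nat.prime_iff_prime_int.1 hpp
      have h1 : (p : ℤ) ∣ (∏ P ∈ T, P) * ∏ Q ∈ S, Q := by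
        rw [← hm]
        exact_mod_cast hpm
      have hpr : ∀ Q : ℤ, IsPr Q → (p : ℤ) ∣ Q → (p : ℤ) = Q := by
        intro Q hQ hd
        have h2 : Associated (p : ℤ) Q := (hpZ.dvd_prime_iff_associated hQ.2).1 hd
        rcases Int.associated_iff.1 h2 with h3 | h3
        · exact h3
        · have := hQ.1
          have : (0 : ℤ) ≤ p := Int.natCast_nonneg p
          omega
      rcases hpZ.dvd_or_dvd h1 with h2 | h2
      · obtain ⟨P, hP, hd⟩ := (hpZ.dvd_finsetProd_iff (fun P => P)).1 h2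
        exact hp.2.2 (hpr P (hT.2.2 P hP).1 hd ▸ hP)
      · obtain ⟨Q, hQ, hd⟩ := (hpZ.dvd_finsetProd_iff (fun P => P)).1 h2
        have h3 := hpr Q (hS Q hQ).1 hd
        have h4 : Q ∣ a := h3 ▸ hpa
        have h5 : Q ∣ s Q := by
          have := dvd_sub h4 (hmS Q hQ)
          rwa [sub_sub_cancel] at this
        exact (hS Q hQ).2.2 0 (by simpa using h5)
    · intro Q hQ h
      have h1 := (hS Q hQ).1.2.not_unit
      apply h1
      rw [Nat.cast_one] at h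
      exact isUnit_of_dvd_one h
    · rw [hcard]
      exact hr.le
  obtain ⟨c, hc, X₀, h⟩ := hK M R n hM hur γ g δ hG T A B a 1 S s hD hδ hsp
  exact ⟨a, ha1, ha2, concl (fun Q hQ => (hS Q hQ).1.1) hc h⟩

/-- Over `ℚ` (or an isomorphic field): for every odd `a > 0`, `a = 2` modulo `3`, not a square. -/
theorem finQ (hFAM : S_FAML) (hBAD : S_BADL) (hEXS : S_EXS1)
    (R : Type) [CommRing R] [IsDedekindDomain R] [Algebra R ℚ]
    [IsFractionRing R ℚ] [IsIntegralClosure R ℤ ℚ]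
    (hur : ∀ w : HeightOneSpectrum R, Ov 2 w → w.valuation ℚ 2 = WithZero.exp (-1 : ℤ)) (a : ℤ) (h0 : 0 < a)
    (h1 : Odd a) (h3 : a % 3 = 2) (hsq : ¬ IsSquare a) : Con ℚ R a := by
  obtain ⟨K, hK⟩ := line0 hFAM hBAD
  have hG : Gen ℚ (0 : ℚ) (X : ℤ[X]) 1 := by
    refine ⟨?_, monic_X, by simp, one_ne_zero, 0, 1, by simp⟩
    rw [eq_top_iff]
    intro x _
    exact (ℚ⟮(0 : ℚ)⟯).algebraMap_mem x
  obtain ⟨T, hTe⟩ : ∃ T : Finset ℤ, T = {2, 3} := ⟨_, rfl⟩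
  have hT : GoodT T (fun _ => a) (fun _ => 1) := by
    rw [hTe]
    refine ⟨by simp, by simp, ?_⟩
    intro P hP
    rw [Finset.mem_insert, Finset.mem_singleton] at hP
    rcases hP with rfl | rfl
    · refine ⟨⟨by norm_num, Int.prime_two⟩, fun z => ?_⟩
      rw [Int.dvd_iff_emod_eq_zero]
      have h2 : a % 2 = 1 := Int.odd_iff.1 h1
      have e : (z ^ 3 + a * z + 1) % 2 = ((z % 2) ^ 3 + (a % 2) * (z % 2) + 1) % 2 := by
        simp [Int.add_emod, Int.mul_emod, pow_succ]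
      rw [e, h2]
      rcases Int.emod_two_eq_zero_or_one z with h | h <;> rw [h] <;> norm_num
    · refine ⟨⟨by norm_num, Int.prime_three⟩, fun z => ?_⟩
      rw [Int.dvd_iff_emod_eq_zero]
      have e : (z ^ 3 + a * z + 1) % 3 = ((z % 3) ^ 3 + (a % 3) * (z % 3) + 1) % 3 := by
        simp [Int.add_emod, Int.mul_emod, pow_succ]
      rw [e, h3]
      have h4 : z % 3 = 0 ∨ z % 3 = 1 ∨ z % 3 = 2 := by omega
      rcases h4 with h | h | h <;> rw [h] <;> norm_num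
  obtain ⟨r, hr⟩ : ∃ r : ℕ, 64 * (K : ℝ) * (a.natAbs : ℕ) * (∏ P ∈ T, (P : ℝ)) < 2 ^ r :=
    pow_unbounded_of_one_lt _ (by norm_num)
  obtain ⟨S, hS, hcard, hdis, hSa⟩ := hEXS a h0 h1 hsq T r
  have hD : Dat K T (fun _ => a) (fun _ => 1) a a.natAbs S (fun _ => a) := by
    refine ⟨hT, h0, fun P _ => by simp, by omega, ?_, hS, fun Q _ => by simp, hdis, ?_, ?_⟩
    · have he : a.natAbs.primeFactors.filter (fun p : ℕ => ¬ p ∣ a.natAbs ∧ (p : ℤ) ∉ T) = ∅ := by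
        rw [Finset.filter_eq_empty_iff]
        intro p hp h
        exact h.1 (Nat.mem_primeFactors.1 hp).2.1
      rw [he, Finset.sum_empty]
      norm_num
    · intro Q hQ h
      rw [Int.dvd_natAbs] at h
      exact hSa Q hQ h
    · rw [hcard]
      exact hr.le
  haveI hg1 : @IsGalois ℚ _ ℚ _ DivisionRing.toRatAlgebra := by
    have h : (DivisionRing.toRatAlgebra : Algebra ℚ ℚ) = Algebra.id ℚ := Subsingleton.elim _ _
    rw [h]
    exact IsGalois.self ℚ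
  haveI hg2 : @IsGalois ℚ _ ℚ _ (Algebra.id ℚ) := IsGalois.self ℚ
  obtain ⟨c, hc, X₀, h⟩ := hK ℚ R 0 (by simp) hur 0 X 1 hG T (fun _ => a) (fun _ => 1) a a.natAbs S (fun _ => a) hD
    (fun P hP h => absurd (isUnit_of_dvd_one h) hP.2.not_unit) (fun Q _ => ⟨{0}, 0, by simp⟩)
  exact concl (fun Q hQ => (hS Q hQ).1.1) hc h

end Pool.Agent.L0h45.LR
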