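import Pool.Agent.L0h45.VL.Main
import Pool.Agent.L0h45.LR.Fin
import Pool.Agent.L0h45.LR.BX0
import Pool.Agent.L0h6.LR.GEO
import Pool.Agent.L0h6.LR.ORBL
import Pool.Agent.L0h6.LR.W2
import Pool.Agent.L0h29.LR.W1
import Pool.Agent.L0h32.LR.PELL
import Pool.Agent.L0h44.LR.EQ
import Pool.Agent.L0h53.LR.FIB
import Pool.Agent.L0h56.LR.PER
import Pool.Agent.L0h56.LR.BOXL
import Pool.Agent.L0h71.LR.WEY
import Pool.Agent.L0h71.LR.FAML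
import Pool.Agent.L0h83.LR.TRV
import Pool.Agent.L0h84.LR.BADL
import Pool.Agent.L0h95.LR.EXA
import Pool.Agent.L0h95.LR.EXS1
import Pool.Agent.L0h95.LR.RHO
import Pool.Agent.L0h96.LR.REG

/-!
# LR: assembly
-/

set_option autoImplicit false
set_option linter.all false

open NumberField IsDedekindDomain
open Pool.Agent.N922.PQ

namespace Pool.Agent.L0h45.LR

theorem eqd : S_EQ :=
  Pool.Agent.L0h44.LR.t_EQ Pool.Agent.L0h6.LR.t_GEO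
    (Pool.Agent.L0h71.LR.t_WEY Pool.Agent.L0h6.LR.t_GEO Pool.Agent.L0h56.LR.t_PER)
    (Pool.Agent.L0h56.LR.t_EQS Pool.Agent.L0h56.LR.t_PER)

theorem cls : S_CLS :=
  Pool.Agent.L0h83.LR.t_CLS
    (Pool.Agent.L0h96.LR.t_REG
      (Pool.Agent.L0h53.LR.t_FIB eqd (Pool.Agent.L0h95.LR.t_RHO Pool.Agent.L0h85.VL.t_V3))
      Pool.Agent.L0h29.LR.t_W1 Pool.Agent.L0h6.LR.t_W2)
    (Pool.Agent.L0h83.LR.t_TRV Pool.Agent.L0h83.VL.v2 Pool.Agent.L0h85.VL.t_V3 Pool.Agent.L0h85.VL.t_V4)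

theorem badl : S_BADL :=
  Pool.Agent.L0h84.LR.t_BADL (Pool.Agent.L0h56.LR.t_BOXL cls)
    (t_BX0 (Pool.Agent.L0h50.VL.v6 Pool.Agent.L0h83.VL.v2 Pool.Agent.L0h85.VL.t_V3 Pool.Agent.L0h85.VL.t_V4))
    Pool.Agent.L0h6.LR.t_ORBL

theorem faml : S_FAML := Pool.Agent.L0h71.LR.t_FAML Pool.Agent.L0h32.LR.t_PELL

theorem asmM (M : Type) [Field M] [NumberField M] [IsGalois ℚ M]
    (R : Type) [CommRing R] [IsDedekindDomain R] [Algebra R M]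
    [IsFractionRing R M] [IsIntegralClosure R ℤ M] (n : ℕ) (hM : Module.finrank ℚ M = 2 ^ n)
    (hur : ∀ w : HeightOneSpectrum R, Ov 2 w → w.valuation M 2 = WithZero.exp (-1 : ℤ)) (N : ℤ) :
    ∃ a : ℤ, N ≤ a ∧ 0 < a ∧ Con M R a :=
  finM faml badl Pool.Agent.L0h95.LR.t_EXA M R n hM hur N

theorem asmQ (R : Type) [CommRing R] [IsDedekindDomain R] [Algebra R ℚ]
    [IsFractionRing R ℚ] [IsIntegralClosure R ℤ ℚ]
    (hur : ∀ w : HeightOneSpectrum R, Ov 2 w → w.valuation ℚ 2 = WithZero.exp (-1 : ℤ)) (a : ℤ) (h0 : 0 < a)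
    (h1 : Odd a) (h3 : a % 3 = 2) (hsq : ¬ IsSquare a) : Con ℚ R a :=
  finQ faml badl Pool.Agent.L0h95.LR.t_EXS1 R hur a h0 h1 h3 hsq

end Pool.Agent.L0h45.LR
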